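import Pool.Agent.T9h94.CZ.Spec2

/-!
# Piece (H): `Dir` is invariant under pull-back
-/

set_option autoImplicit false

namespace Pool.Agent.T9h81.CZ

open Pool.Agent.T9h94.CZ

theorem sDirInv : SDirInv := by
  intro α M P _ _ Z Z' hZ hZ' hpull χ χ' hD hP
  obtain ⟨hs, A, hA, hc⟩ := hD
  refine ⟨?_, (A.comap (FreeGroup.lift Z')).map (FreeGroup.lift Z), ?_, ?_⟩
  · intro p
    obtain ⟨m, rfl⟩ := hs p
    obtain ⟨w, rfl⟩ := hZ' m
    exact ⟨FreeGroup.lift Z w, hP w⟩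
  · rw [eq_top_iff]
    intro p _
    have hp : p ∈ A.map χ := by rw [hA]; trivial
    obtain ⟨a, ha, rfl⟩ := Subgroup.mem_map.1 hp
    obtain ⟨w, rfl⟩ := hZ' a
    refine Subgroup.mem_map.2 ⟨FreeGroup.lift Z w, Subgroup.mem_map.2 ⟨w, ?_, rfl⟩, hP w⟩
    exact Subgroup.mem_comap.2 ha
  · intro a' ha' k' hk' ψ
    obtain ⟨w, hw, rfl⟩ := Subgroup.mem_map.1 ha'
    have hw' : FreeGroup.lift Z' w ∈ A := Subgroup.mem_comap.1 hw
    obtain ⟨v, rfl⟩ := hZ k'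
    have hv : FreeGroup.lift Z' v ∈ χ.ker := by
      rw [MonoidHom.mem_ker, ← hP v]
      exact hk'
    obtain ⟨ψ₀, hψ⟩ := hpull ψ
    have h := hc _ hw' _ hv ψ₀
    rw [← map_mul, ← map_mul, ← hψ, ← hψ, map_mul (FreeGroup.lift Z), map_mul (FreeGroup.lift Z)]
      at h
    exact h

end Pool.Agent.T9h81.CZ
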