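import Pool.Agent.T9h94.CZ.Spec2

/-!
# Piece (J): finite groups are finitely presented and equationally Noetherian
-/

set_option autoImplicit false

namespace Pool.Agent.T9h81.CZ

open Pool.Agent.T9h94.CZ

theorem sFinite : SFinite := by
  intro P _ _
  refine ⟨inferInstance, ?_⟩
  intro α _ S
  classical
  have hfin : Finite (α → P) := inferInstance
  let bad : Set (α → P) := {x | ∃ w ∈ S, FreeGroup.lift x w ≠ 1}
  choose! W hW1 hW2 using fun (x : α → P) (hx : x ∈ bad) => hx
  refine ⟨W '' bad, (Set.toFinite bad).image W, ?_, ?_⟩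
  · rintro _ ⟨x, hx, rfl⟩
    exact hW1 x hx
  · intro x hx w hw
    by_contra h
    have hb : x ∈ bad := ⟨w, hw, h⟩
    exact hW2 x hb (hx (W x) ⟨x, hb, rfl⟩)

end Pool.Agent.T9h81.CZ
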